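import Pool.Agent.Helper69.QG.St1

/-! # Project QD, part C, geometric half: module CTA (even elements act by Moebius maps) -/

open Complex Set Metric
open scoped ComplexConjugate

namespace Pool.Agent.Helper52.QG

open Pool.Agent.Helper69.QG

lemma nrm_iff (α β : ℂ) : ‖α‖ ^ 2 - ‖β‖ ^ 2 = 1 ↔ α * conj α - β * conj β = 1 := by
  rw [Complex.mul_conj, Complex.mul_conj, ← Complex.normSq_eq_norm_sq,
    ← Complex.normSq_eq_norm_sq, ← Complex.ofReal_sub]
  constructor
  · intro h
    rw [h]
    simp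
  · intro h
    exact_mod_cast h

lemma den_ne {α β z : ℂ} (h : ‖α‖ ^ 2 - ‖β‖ ^ 2 = 1) (hz : ‖z‖ < 1) :
    conj β * z + conj α ≠ 0 := by
  intro h0
  have h1 : conj α = -(conj β * z) := by linear_combination h0
  have h2 : ‖α‖ = ‖β‖ * ‖z‖ := by
    have := congrArg norm h1
    rwa [norm_neg, norm_mul, RCLike.norm_conj, RCLike.norm_conj] at this
  have h3 : ‖z‖ ^ 2 < 1 := by nlinarith [norm_nonneg z]
  rw [h2, mul_pow] at h
  nlinarith [sq_nonneg ‖β‖]

lemma R_form (s : Fin 4) : ∃ α β : ℂ, ‖α‖ ^ 2 - ‖β‖ ^ 2 = 1 ∧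
    ∀ z : ℂ, ‖z‖ < 1 → R s z = (α * conj z + β) / (conj β * conj z + conj α) := by
  have hC := C0_gt
  have hr2 : 0 < C0 ^ 2 - 1 := by nlinarith
  set r : ℝ := Real.sqrt (C0 ^ 2 - 1) with hr
  have hr0 : 0 < r := Real.sqrt_pos.2 hr2
  have hrr : r ^ 2 = C0 ^ 2 - 1 := Real.sq_sqrt hr2.le
  have hrc : (r : ℂ) ≠ 0 := by exact_mod_cast hr0.ne'
  have hrrc : (r : ℂ) ^ 2 = (C0 : ℂ) ^ 2 - 1 := by
    exact_mod_cast congrArg (fun x : ℝ => (x : ℂ)) hrr
  fin_cases s
  · refine ⟨I, 0, by simp, fun z _ => ?_⟩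
    show -conj z = _
    rw [map_zero, zero_mul, zero_add, add_zero, Complex.conj_I]
    field_simp
  · have hn : ‖(-(I * C0 / r) : ℂ)‖ ^ 2 - ‖(I / r : ℂ)‖ ^ 2 = 1 := by
      rw [nrm_iff]
      simp only [map_neg, map_div₀, map_mul, Complex.conj_I, Complex.conj_ofReal]
      field_simp
      linear_combination (1 - (C0 : ℂ) ^ 2) * Complex.I_sq - hrrc
    refine ⟨-(I * C0 / r), I / r, hn, fun z hz => ?_⟩
    have hd := den_ne hn (z := conj z) (by rwa [RCLike.norm_conj])
    have hd2 : conj z - C0 ≠ 0 := by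
      intro h0
      apply hd
      simp only [map_neg, map_div₀, map_mul, Complex.conj_I, Complex.conj_ofReal]
      have : conj z = C0 := by linear_combination h0
      rw [this]
      ring
    show (C0 * conj z - 1) / (conj z - C0) = _
    rw [div_eq_div_iff hd2 hd]
    simp only [map_neg, map_div₀, map_mul, Complex.conj_I, Complex.conj_ofReal]
    field_simp
    ring
  · refine ⟨1, 0, by simp, fun z _ => ?_⟩
    show conj z = _
    simp
  · have hn : ‖((C0 : ℂ) / r : ℂ)‖ ^ 2 - ‖(I / r : ℂ)‖ ^ 2 = 1 := by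
      rw [nrm_iff]
      simp only [map_div₀, map_mul, Complex.conj_I, Complex.conj_ofReal]
      field_simp
      linear_combination Complex.I_sq - hrrc
    refine ⟨(C0 : ℂ) / r, I / r, hn, fun z hz => ?_⟩
    have hd := den_ne hn (z := conj z) (by rwa [RCLike.norm_conj])
    have hd2 : conj z + I * C0 ≠ 0 := by
      intro h0
      apply hd
      simp only [map_div₀, map_mul, Complex.conj_I, Complex.conj_ofReal]
      have : conj z = -(I * C0) := by linear_combination h0
      rw [this]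
      field_simp
      linear_combination (C0 : ℂ) * Complex.I_sq
    show (I * C0 * conj z - 1) / (conj z + I * C0) = _
    rw [div_eq_div_iff hd2 hd]
    simp only [map_div₀, map_mul, Complex.conj_I, Complex.conj_ofReal]
    field_simp
    linear_combination (-(C0 : ℂ) * conj z ^ 2 - (C0 : ℂ)) * Complex.I_sq

lemma comp_form {a b α β z : ℂ} (hab : ‖a‖ ^ 2 - ‖b‖ ^ 2 = 1) (hαβ : ‖α‖ ^ 2 - ‖β‖ ^ 2 = 1)
    (hz : ‖z‖ < 1) (hu : ‖(α * z + β) / (conj β * z + conj α)‖ < 1) :
    ‖a * conj α + b * β‖ ^ 2 - ‖a * conj β + b * α‖ ^ 2 = 1 ∧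
    (a * conj ((α * z + β) / (conj β * z + conj α)) + b) /
      (conj b * conj ((α * z + β) / (conj β * z + conj α)) + conj a) =
    ((a * conj α + b * β) * conj z + (a * conj β + b * α)) /
      (conj (a * conj β + b * α) * conj z + conj (a * conj α + b * β)) := by
  have h1 : ‖a * conj α + b * β‖ ^ 2 - ‖a * conj β + b * α‖ ^ 2 = 1 := by
    rw [nrm_iff] at hab hαβ ⊢
    simp only [map_add, map_mul, Complex.conj_conj]
    linear_combination (a * conj a - b * conj b) * hαβ + hab
  refine ⟨h1, ?_⟩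
  have hd1 := den_ne h1 (z := conj z) (by rwa [RCLike.norm_conj])
  have hd2 := den_ne hab (z := conj ((α * z + β) / (conj β * z + conj α)))
    (by rwa [RCLike.norm_conj])
  have hd3 : β * conj z + α ≠ 0 := by
    have := den_ne hαβ hz
    intro h0
    apply this
    have h2 := congrArg conj h0
    simpa using h2
  rw [div_eq_div_iff hd2 hd1]
  simp only [map_add, map_mul, map_div₀, Complex.conj_conj]
  obtain ⟨D, hD⟩ : ∃ D, D = β * conj z + α := ⟨_, rfl⟩
  rw [← hD] at hd3 ⊢
  field_simp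
  rw [hD]
  ring

/-- the general form -/
lemma act_form (w : W) : ∃ α β : ℂ, ‖α‖ ^ 2 - ‖β‖ ^ 2 = 1 ∧
    (w ∈ Ev → ∀ z : DD, ((act w z : DD) : ℂ) = (α * z + β) / (conj β * z + conj α)) ∧
    (w ∉ Ev → ∀ z : DD, ((act w z : DD) : ℂ) =
      (α * conj (z : ℂ) + β) / (conj β * conj (z : ℂ) + conj α)) := by
  have hnorm : ∀ z : DD, ‖(z : ℂ)‖ < 1 := fun z => mem_ball_zero_iff.1 z.2
  have hpar : ∀ (s : Fin 4) (w : W), cs.simple s * w ∈ Ev ↔ w ∉ Ev := by
    intro s w
    have key : ∀ x : Multiplicative (ZMod 2), Multiplicative.ofAdd 1 * x = 1 ↔ x ≠ 1 := by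
      decide
    unfold Ev
    rw [MonoidHom.mem_ker, MonoidHom.mem_ker, map_mul, cs.lengthParity_simple]
    exact key _
  refine cs.simple_induction_left (p := fun w => ∃ α β : ℂ, ‖α‖ ^ 2 - ‖β‖ ^ 2 = 1 ∧
    (w ∈ Ev → ∀ z : DD, ((act w z : DD) : ℂ) = (α * z + β) / (conj β * z + conj α)) ∧
    (w ∉ Ev → ∀ z : DD, ((act w z : DD) : ℂ) =
      (α * conj (z : ℂ) + β) / (conj β * conj (z : ℂ) + conj α))) w ?_ ?_
  · refine ⟨1, 0, by simp, fun _ z => by simp, fun h => absurd (one_mem _) h⟩
  · rintro w s ⟨α, β, h, hE, hO⟩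
    obtain ⟨a, b, hab, hR⟩ := R_form s
    refine ⟨a * conj α + b * β, a * conj β + b * α, ?_, fun hs z => ?_, fun hs z => ?_⟩
    · rw [nrm_iff] at hab h ⊢
      simp only [map_add, map_mul, Complex.conj_conj]
      linear_combination (a * conj a - b * conj b) * h + hab
    · have hw : w ∉ Ev := (hpar s w).1 hs
      have e1 : act (cs.simple s * w) z = Rp s (act w z) := by
        rw [map_mul, Equiv.Perm.mul_apply]
        exact congrArg (fun f : Equiv.Perm DD => f (act w z)) (act_gen s)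
      rw [e1, Rp_apply, hR _ (hnorm _)]
      have h2 := hnorm (act w z)
      rw [hO hw z] at h2 ⊢
      have h3 := (comp_form hab h (z := conj (z : ℂ)) (by rw [RCLike.norm_conj]; exact hnorm z) h2).2
      rw [Complex.conj_conj] at h3
      exact h3
    · have hw : w ∈ Ev := by
        by_contra hc
        exact hs ((hpar s w).2 hc)
      have e1 : act (cs.simple s * w) z = Rp s (act w z) := by
        rw [map_mul, Equiv.Perm.mul_apply]
        exact congrArg (fun f : Equiv.Perm DD => f (act w z)) (act_gen s)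
      rw [e1, Rp_apply, hR _ (hnorm _)]
      have h2 := hnorm (act w z)
      rw [hE hw z] at h2 ⊢
      exact (comp_form hab h (hnorm z) h2).2

theorem cCTA : St_CTA := by
  have hnorm : ∀ z : DD, ‖(z : ℂ)‖ < 1 := fun z => mem_ball_zero_iff.1 z.2
  refine ⟨fun w => ?_, fun w => ?_, fun w => ?_⟩
  · obtain ⟨α, β, h, hE, hO⟩ := act_form w
    rw [continuous_induced_rng]
    by_cases hw : w ∈ Ev
    · have : (Subtype.val ∘ (act w : DD → DD)) =
          fun z : DD => (α * (z : ℂ) + β) / (conj β * z + conj α) := funext (hE hw)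
      rw [this]
      exact Continuous.div (by fun_prop) (by fun_prop) fun z => den_ne h (hnorm z)
    · have : (Subtype.val ∘ (act w : DD → DD)) =
          fun z : DD => (α * conj (z : ℂ) + β) / (conj β * conj (z : ℂ) + conj α) := funext (hO hw)
      rw [this]
      have hc : Continuous fun z : DD => conj (z : ℂ) :=
        Complex.continuous_conj.comp continuous_subtype_val
      exact Continuous.div ((continuous_const.mul hc).add continuous_const)
        ((continuous_const.mul hc).add continuous_const)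
        fun z => den_ne h (by rw [RCLike.norm_conj]; exact hnorm z)
  · obtain ⟨α, β, h, hE, -⟩ := act_form w
    exact ⟨α, β, h, hE w.2⟩
  · obtain ⟨α, β, h, -, hO⟩ := act_form ((w : W) * gen 0)
    refine ⟨α, β, h, hO fun hm => ?_⟩
    have h0 : gen 0 ∈ Ev := by
      have := Ev.mul_mem (Ev.inv_mem w.2) hm
      rwa [inv_mul_cancel_left] at this
    unfold Ev gen at h0
    rw [MonoidHom.mem_ker, cs.lengthParity_simple] at h0
    revert h0
    decide

end Pool.Agent.Helper52.QG
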